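import Mathlib
import Pool.Agent.T9h72.KU.Spec

/-!
# KU: the quantile function of the knot law
-/

set_option autoImplicit false

namespace Pool.Agent.T9h77.KU

open MeasureTheory ProbabilityTheory Set Filter Topology Pool.Agent.R190.KR Pool.Agent.T9h72.KU

/-- `S` on `[1/2, β]`, the line `S β + a (x - β)` on `[β, 1]`, odd about `1/2` -/
noncomputable def gstar (n m : ℕ) (β a x : ℝ) : ℝ :=
  hatS n m β x + a * max (x - β) 0 - a * max (1 - x - β) 0

section
variable {n m : ℕ} {β a : ℝ}

theorem measurable_gstar : Measurable (gstar n m β a) := by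
  unfold gstar
  have := measurable_hatS n m β
  fun_prop

theorem gstar_one_sub (hβ : 1 / 2 ≤ β) (x : ℝ) :
    gstar n m β a (1 - x) = -gstar n m β a x := by
  unfold gstar
  rw [hatS_one_sub n m hβ, sub_sub_cancel]
  ring

theorem gstar_low (hβ : 1 / 2 ≤ β) {x : ℝ} (hx : x ∈ Icc (1 / 2 : ℝ) β) :
    gstar n m β a x = S n m x := by
  unfold gstar hatS
  rw [clamp_of_mem (by linarith [hx.1]) hx.2, max_eq_right (by linarith [hx.2]),
    max_eq_right (by linarith [hx.1])]
  ring

theorem gstar_high (hβ : 1 / 2 ≤ β) {x : ℝ} (hx : β ≤ x) :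
    gstar n m β a x = S n m β + a * (x - β) := by
  unfold gstar hatS
  rw [clamp_of_ge hβ hx, max_eq_left (by linarith), max_eq_right (by linarith)]
  ring

theorem gstar_bound (hβ : β ∈ Ioo (1 / 2 : ℝ) 1) (ha : 0 < a) {B : ℝ}
    (hB : ∀ x ∈ Icc (0 : ℝ) 1, |S n m x| ≤ B) :
    ∀ x ∈ Icc (0 : ℝ) 1, |gstar n m β a x| ≤ B + a := by
  have hmain : ∀ x ∈ Icc (1 / 2 : ℝ) 1, |gstar n m β a x| ≤ B + a := by
    intro x hx
    rcases le_total x β with h | h
    · rw [gstar_low hβ.1.le ⟨hx.1, h⟩]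
      have := hB x ⟨by linarith [hx.1], hx.2⟩
      linarith
    · rw [gstar_high hβ.1.le h]
      have h1 := hB β ⟨by linarith [hβ.1], hβ.2.le⟩
      have h2 : |a * (x - β)| ≤ a := by
        rw [abs_of_nonneg (mul_nonneg ha.le (by linarith))]
        have : x - β ≤ 1 := by linarith [hx.2, hβ.1]
        nlinarith
      have h3 := abs_add_le (S n m β) (a * (x - β))
      linarith
  intro x hx
  rcases le_total (1 / 2) x with h | h
  · exact hmain x ⟨h, hx.2⟩
  · have h1 := hmain (1 - x) ⟨by linarith, by linarith [hx.1]⟩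
    rw [gstar_one_sub hβ.1.le, abs_neg] at h1
    exact h1

theorem continuous_gstar (hm : 1 ≤ m) (hβ : β ∈ Ioo (1 / 2 : ℝ) 1) :
    Continuous (gstar n m β a) := by
  have h1 : Continuous (hatS n m β) := by
    unfold hatS
    have hc : Continuous (clamp β) := by
      unfold clamp
      fun_prop
    apply (continuousOn_S n m hm).comp_continuous hc
    intro x
    have h := clamp_mem hβ.1.le x
    exact ⟨by linarith [h.1, hβ.2], by linarith [h.2, hβ.2]⟩
  unfold gstar
  fun_prop

/-- derivative of `gstar` on `(1/2, 1)` off `β` -/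
noncomputable def dstar (n m : ℕ) (β a x : ℝ) : ℝ := if x < β then S1 n m x else a

theorem hasDerivAt_gstar (hβ : β ∈ Ioo (1 / 2 : ℝ) 1) {x : ℝ} (hx : x ∈ Ioo (1 / 2 : ℝ) 1)
    (hne : x ≠ β) : HasDerivAt (gstar n m β a) (dstar n m β a x) x := by
  unfold dstar
  rcases lt_or_gt_of_ne hne with h | h
  · rw [if_pos h]
    refine (hasDerivAt_S n m (by linarith [hx.1]) hx.2).congr_of_eventuallyEq ?_
    filter_upwards [Ioo_mem_nhds hx.1 h] with y hy
    exact gstar_low hβ.1.le ⟨hy.1.le, hy.2.le⟩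
  · rw [if_neg (not_lt.2 h.le)]
    have h1 : HasDerivAt (fun y => S n m β + a * (y - β)) a x := by
      have := (((hasDerivAt_id x).sub_const β).const_mul a).const_add (S n m β)
      simpa using this
    refine h1.congr_of_eventuallyEq ?_
    filter_upwards [Ioi_mem_nhds h] with y hy
    exact gstar_high hβ.1.le (le_of_lt hy)

theorem S1_pos_of_convex (hβ : β ∈ Ioo (1 / 2 : ℝ) 1)
    (hc : ConvexOn ℝ (Icc (1 / 2) β) (S n m)) (hmo : StrictMonoOn (S n m) (Icc (1 / 2) β))
    {x : ℝ} (hx : x ∈ Ioc (1 / 2 : ℝ) β) : 0 < S1 n m x := by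
  have h1 := hc.slope_le_of_hasDerivAt (x := 1 / 2) (y := x) ⟨le_rfl, hβ.1.le⟩ ⟨hx.1.le, hx.2⟩ hx.1
    (hasDerivAt_S n m (by linarith [hx.1]) (by linarith [hx.2, hβ.2]))
  have h2 := hmo (a := 1 / 2) (b := x) ⟨le_rfl, hβ.1.le⟩ ⟨hx.1.le, hx.2⟩ hx.1
  refine lt_of_lt_of_le ?_ h1
  rw [slope_def_field]
  exact div_pos (by linarith) (by linarith [hx.1])

theorem S1_mono_of_convex (hβ : β ∈ Ioo (1 / 2 : ℝ) 1)
    (hc : ConvexOn ℝ (Icc (1 / 2) β) (S n m)) {x y : ℝ} (hx : 1 / 2 < x) (hxy : x ≤ y)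
    (hy : y ≤ β) : S1 n m x ≤ S1 n m y := by
  rcases hxy.eq_or_lt with h | h
  · rw [h]
  · have h1 := hc.le_slope_of_hasDerivAt (x := x) (y := y) ⟨hx.le, by linarith⟩
      ⟨by linarith, hy⟩ h (hasDerivAt_S n m (by linarith) (by linarith [hβ.2]))
    have h2 := hc.slope_le_of_hasDerivAt (x := x) (y := y) ⟨hx.le, by linarith⟩
      ⟨by linarith, hy⟩ h (hasDerivAt_S n m (by linarith) (by linarith [hβ.2]))
    exact h1.trans h2

theorem goodQ_gstar (hm : 1 ≤ m) (hβ : β ∈ Ioo (1 / 2 : ℝ) 1) (ha : 0 < a)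
    (hc : ConvexOn ℝ (Icc (1 / 2) β) (S n m)) (hmo : StrictMonoOn (S n m) (Icc (1 / 2) β))
    (hle : S1 n m β ≤ a) :
    ∃ B, GoodQ (gstar n m β a) (dstar n m β a) B β := by
  obtain ⟨B, hB⟩ := exists_bound_S n m hm
  refine ⟨B + a, measurable_gstar, fun x hx => gstar_bound hβ ha hB x ⟨hx.1.le, hx.2.le⟩,
    fun x _ => gstar_one_sub hβ.1.le x, (continuous_gstar hm hβ).continuousOn,
    fun x hx hne => hasDerivAt_gstar hβ hx hne, ?_, ?_⟩
  · intro x hx
    unfold dstar
    split_ifs with h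
    · exact S1_pos_of_convex hβ hc hmo ⟨hx.1, h.le⟩
    · exact ha
  · intro x hx y hy hxy
    unfold dstar
    split_ifs with h1 h2 h2
    · exact S1_mono_of_convex hβ hc hx.1 hxy h2.le
    · exact (S1_mono_of_convex hβ hc hx.1 h1.le le_rfl).trans hle
    · exact absurd (lt_of_le_of_lt hxy h2) h1
    · exact le_rfl

theorem integral_gstar_sq (hm : 1 ≤ m) (hβ : β ∈ Ioo (1 / 2 : ℝ) 1) (ha : 0 < a) :
    ∫ x in Ioo (0 : ℝ) 1, gstar n m β a x ^ 2 = 2 * V n m β a := by
  obtain ⟨B, hB⟩ := exists_bound_S n m hm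
  have hb := gstar_bound (n := n) (m := m) hβ ha hB
  have hi := ii_of_bound (q := fun x => gstar n m β a x ^ 2) (measurable_gstar.pow_const 2)
    (B := (B + a) ^ 2) (fun x hx => by
      rw [abs_pow]; exact pow_le_pow_left₀ (abs_nonneg _) (hb x hx) 2)
  rw [even_integral (fun x _ => by rw [gstar_one_sub hβ.1.le]; ring) hi,
    ← intervalIntegral.integral_add_adjacent_intervals (hi (1 / 2) β (by norm_num) hβ.1.le hβ.2.le)
      (hi β 1 (by linarith [hβ.1]) hβ.2.le le_rfl)]
  unfold V
  congr 2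
  · apply intervalIntegral.integral_congr
    intro x hx
    rw [uIcc_of_le hβ.1.le] at hx
    dsimp only
    rw [gstar_low hβ.1.le hx]
  · apply intervalIntegral.integral_congr
    intro x hx
    rw [uIcc_of_le hβ.2.le] at hx
    dsimp only
    rw [gstar_high hβ.1.le hx.1]

theorem integral_gstar_mul_S (hm : 1 ≤ m) (hK : KnotS n m β a) :
    ∫ x in Ioo (0 : ℝ) 1, gstar n m β a x * S n m x = 2 * V n m β a := by
  have hβ := hK.mem
  have ha := hK.pos
  obtain ⟨B, hB⟩ := exists_bound_S n m hm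
  have hb := gstar_bound (n := n) (m := m) hβ ha hB
  have hi := ii_of_bound (q := fun x => gstar n m β a x * S n m x)
    (measurable_gstar.mul (measurable_S n m))
    (B := (B + a) * B) (fun x hx => by
      rw [abs_mul]
      exact mul_le_mul (hb x hx) (hB x hx) (abs_nonneg _) ((abs_nonneg _).trans (hb x hx)))
  rw [even_integral (fun x _ => by rw [gstar_one_sub hβ.1.le, S_one_sub]; ring) hi,
    ← intervalIntegral.integral_add_adjacent_intervals (hi (1 / 2) β (by norm_num) hβ.1.le hβ.2.le)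
      (hi β 1 (by linarith [hβ.1]) hβ.2.le le_rfl)]
  unfold V
  congr 2
  · apply intervalIntegral.integral_congr
    intro x hx
    rw [uIcc_of_le hβ.1.le] at hx
    dsimp only
    rw [gstar_low hβ.1.le hx]
    ring
  · have hcS : ContinuousOn (S n m) (uIcc β 1) := by
      rw [uIcc_of_le hβ.2.le]
      exact (continuousOn_S n m hm).mono (Icc_subset_Icc (by linarith [hβ.1]) le_rfl)
    have e1 : ∫ x in β..1, gstar n m β a x * S n m x =
        ∫ x in β..1, ((S n m β + a * (x - β)) ^ 2 +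
          (S n m β * (S n m x - (S n m β + a * (x - β))) +
            a * ((S n m x - (S n m β + a * (x - β))) * (x - β)))) := by
      apply intervalIntegral.integral_congr
      intro x hx
      rw [uIcc_of_le hβ.2.le] at hx
      dsimp only
      rw [gstar_high hβ.1.le hx.1]
      ring
    have i1 : IntervalIntegrable (fun x : ℝ => (S n m β + a * (x - β)) ^ 2) volume β 1 := by
      apply Continuous.intervalIntegrable
      fun_prop
    have i2 : IntervalIntegrable (fun x : ℝ => S n m x - (S n m β + a * (x - β))) volume β 1 := by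
      apply ContinuousOn.intervalIntegrable
      exact hcS.sub (by fun_prop)
    have i3 : IntervalIntegrable (fun x : ℝ => (S n m x - (S n m β + a * (x - β))) * (x - β))
        volume β 1 := by
      apply ContinuousOn.intervalIntegrable
      exact (hcS.sub (by fun_prop)).mul (by fun_prop)
    rw [e1, intervalIntegral.integral_add i1 ((i2.const_mul _).add (i3.const_mul _)),
      intervalIntegral.integral_add (i2.const_mul _) (i3.const_mul _),
      intervalIntegral.integral_const_mul, intervalIntegral.integral_const_mul, hK.mom0, hK.mom1]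
    ring

end

end Pool.Agent.T9h77.KU
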