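import Mathlib
import Pool.Agent.T9h77.KU.Gstar

/-!
# KU: the knot law attains the bound (job KLO)
-/

set_option autoImplicit false

namespace Pool.Agent.T9h77.KU

open MeasureTheory ProbabilityTheory Set Filter Topology Pool.Agent.R190.KR Pool.Agent.T9h72.KU

theorem peak_of_knot {n m : ℕ} (hn : 1 ≤ n) (hm : 1 ≤ m) {β a : ℝ} (hK : KnotS n m β a) :
    ∃ c, Peak n m c ∧ β ≤ c := by
  have hβ := hK.mem
  have hpos : 0 < S n m β := by
    have := hK.mono (left_mem_Icc.2 hβ.1.le) (right_mem_Icc.2 hβ.1.le) hβ.1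
    rwa [S_half] at this
  obtain ⟨c, hc, hc0, hmax, hmo, hanti⟩ := exists_peak n m hn hm ⟨β, ⟨hβ.1.le, hβ.2.le⟩, hpos⟩
  refine ⟨c, ⟨hc, hc0, hmax, hmo, hanti⟩, ?_⟩
  by_contra hcon
  push Not at hcon
  have h1 := hK.mono ⟨hc.1.le, hcon.le⟩ (right_mem_Icc.2 hβ.1.le) hcon
  have h2 := hmax β ⟨hβ.1.le, hβ.2.le⟩
  linarith

theorem S1_le_slope (hPAT : S_PAT) (hPM : S_PM) {n m : ℕ} (hn : 1 ≤ n) (hm : 1 ≤ m) {β a : ℝ}
    (hK : KnotS n m β a) : S1 n m β ≤ a := by
  have hβ := hK.mem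
  have ha := hK.pos
  obtain ⟨c, hP, hβc⟩ := peak_of_knot hn hm hK
  obtain ⟨c1, c2, h1, h12, h2, p1, p2, p3⟩ := hPAT n m hn hm c hP β ⟨hβ.1.le, hβc⟩ a ha
  by_contra hcon
  push Not at hcon
  have hpos : 0 < S n m β := by
    have := hK.mono (left_mem_Icc.2 hβ.1.le) (right_mem_Icc.2 hβ.1.le) hβ.1
    rwa [S_half] at this
  -- positivity just after `β`
  have hder : HasDerivAt (fun x => S n m x - (S n m β + a * (x - β))) (S1 n m β - a) β := by
    have e1 := (((hasDerivAt_id β).sub_const β).const_mul a).const_add (S n m β)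
    have e2 := (hasDerivAt_S n m (x := β) (by linarith [hβ.1]) hβ.2).sub e1
    rw [mul_one] at e2
    exact e2
  have hev : ∀ᶠ x in 𝓝[>] β, 0 < S n m x - (S n m β + a * (x - β)) := by
    have h3 := (hasDerivAt_iff_tendsto_slope.1 hder).mono_left
      (nhdsWithin_mono β (show Ioi β ⊆ {β}ᶜ from fun x hx => ne_of_gt hx))
    have h4 := h3.eventually (lt_mem_nhds (show (0 : ℝ) < S1 n m β - a by linarith))
    filter_upwards [h4, self_mem_nhdsWithin] with x hx hx'
    rw [slope_def_field] at hx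
    have hx'' : β < x := hx'
    have h5 := (div_pos_iff_of_pos_right (show (0 : ℝ) < x - β by linarith)).1 hx
    simp only [sub_self, mul_zero, add_zero, sub_zero] at h5
    exact h5
  have hc1 : c1 = β := by
    rcases h1.eq_or_lt with h | h
    · exact h.symm
    · exfalso
      obtain ⟨x, hx, hx2⟩ := (hev.and (Ioo_mem_nhdsGT h)).exists
      have := p1 x ⟨hx2.1.le, hx2.2.le⟩
      linarith
  rw [hc1] at h12 p2
  have hr1 : S n m 1 - (S n m β + a * (1 - β)) < 0 := by
    rw [S_at_one n m hn hm]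
    have : 0 < a * (1 - β) := mul_pos ha (by linarith [hβ.2])
    linarith
  have hcS : ContinuousOn (fun x => S n m x - (S n m β + a * (x - β))) (Icc β 1) :=
    ((continuousOn_S n m hm).mono (Icc_subset_Icc (by linarith [hβ.1]) le_rfl)).sub (by fun_prop)
  have hfin := hPM (fun x => S n m x - (S n m β + a * (x - β))) β c2 h12 h2 hcS
    (fun x hx => by have := p2 x hx; linarith) (fun x hx => by have := p3 x hx; linarith) hr1
    hK.mom1
  rw [hK.mom0] at hfin
  exact lt_irrefl _ hfin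

/-- job KLO -/
theorem klo : S_VAL → S_PAT → S_PM → S_KLO := by
  intro hVAL hPAT hPM n m hn hm β a hK
  obtain ⟨B, hQ⟩ := goodQ_gstar (n := n) (m := m) hm hK.mem hK.pos hK.conv hK.mono
    (S1_le_slope hPAT hPM hn hm hK)
  have h := hVAL n m hm _ _ B β hQ
  rw [integral_gstar_mul_S hm hK, integral_gstar_sq hm hK.mem hK.pos, mul_div_assoc,
    Real.div_sqrt] at h
  exact h

end Pool.Agent.T9h77.KU
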