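import Mathlib
import Pool.Agent.T9h72.KU.Spec

/-!
# KU: the value for the law of `g(U)` (job VAL)
-/

set_option autoImplicit false

namespace Pool.Agent.T9h77.KU

open MeasureTheory ProbabilityTheory Set Filter Topology Pool.Agent.R190.KR Pool.Agent.T9h72.KU

/-- job VAL -/
theorem val : S_LAW → S_VAL := by
  intro hlaw n m hm g d B β hQ
  obtain ⟨hmono, hU⟩ := hlaw g d B β hQ
  have hgm := hQ.meas
  have hB := hQ.bdd
  have hodd := hQ.odd
  refine ⟨_, hU, ?_⟩
  rw [mean_map hgm hodd, sd_map hgm hodd]
  congr 1
  unfold recMean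
  rw [intervalIntegral.integral_of_le zero_le_one, integral_Ioc_eq_integral_Ioo,
    quantile_map_integral hgm hmono (measurable_recDens n (m + 1)), sub_zero,
    integral_odd_mul hgm hodd (measurable_recDens n (m + 1))]
  · rw [← integral_const_mul, ← integral_const_mul]
    congr 1
    funext x
    unfold S
    rw [recDens_eq, recDens_eq]
    ring
  · obtain ⟨B', hB'⟩ := exists_bound_G n m hm
    apply Measure.integrableOn_of_bounded (M := B * (K n m * B')) (by simp)
      (hgm.mul (measurable_recDens n (m + 1))).aestronglyMeasurable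
    filter_upwards [ae_restrict_mem measurableSet_Ioo] with x hx
    rw [Real.norm_eq_abs, Pi.mul_apply, abs_mul, recDens_eq, abs_mul, abs_of_pos (K_pos n m)]
    have h1 := hB x hx
    have h2 := hB' x ⟨hx.1.le, hx.2.le⟩
    have h3 := K_pos n m
    exact mul_le_mul h1 (mul_le_mul_of_nonneg_left h2 h3.le) (by positivity)
      ((abs_nonneg _).trans h1)

end Pool.Agent.T9h77.KU
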